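import Pool.Agent.H92.S2.LUT2
import Pool.Agent.H67.SFU.LTW

/-!
# MP_70ba79_ag, THEOREM S, part 2, row LTW2: the step of the lower bound
-/

set_option autoImplicit false

namespace Pool.Agent.H67.SFV

open MvPolynomial
open Pool.Agent.H84.SM (dp cr dt)
open Pool.Agent.H3.SF Pool.Agent.H3.S2 Pool.Agent.H92.SF Pool.Agent.H92.S2
open Pool.Agent.H67.SFU (abs_step Ps_cq cf_cq coeff_cq smul_eq_cq cfl cfl_apply mulL_mem
  finrank_mulL PP card_PP mo exists_mo)

theorem pf_LTW2 (hDAT : T_DAT2) (hDEG : T_DEG2) (hFIN : T_FIN2) (hRES : T_RES2)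
    (hRDT : T_RDT2) : T_LTW2 := by
  intro k F _ _ _ _ _ u dd δ j0 c0 J m G hGd n τ
  have hB : Bw u dd δ j0 c0 J m G := hGd.toBw
  obtain ⟨-, -, hJ0, -, -, hJh, -⟩ := hDAT k F u dd δ j0 c0 J m G hB
  have hfE : Module.Finite k (E u dd J m G n τ) := hFIN k F u dd δ j0 c0 J m G hB n τ
  have hfE' : Module.Finite k (E u dd J m G n ((τ : ℤ) - m + j0)) :=
    hFIN k F u dd δ j0 c0 J m G hB n _
  have hG0 : G ≠ 0 := hB.ne
  set e : ℕ → ℤ := fun j => (τ : ℤ) + n * ((m : ℤ) + 2 * j0 - 2) - j * (2 * m + 6 * j0 - 3)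
    with he
  have hdeg : ∀ V ∈ E u dd J m G n τ, ∀ (j : ℕ) (a : Fin 3 →₀ ℕ),
      cf u dd J m G V j a ∈ BB k u (eu u dd) (e j) := fun V hV j a =>
    ⟨hV.2 j a, (hDEG k F u dd δ j0 c0 J m G hB n τ V hV.1).1 j a⟩
  have hfin : ∀ t : ℤ, Module.Finite k (BB k u (eu u dd) t) := hB.fin
  set R : ℤ → Submodule k F := fun t =>
    (BB k u (eu u dd) (t - m)).map (LinearMap.mulLeft k G) with hR
  have hRle : ∀ t, R t ≤ BB k u (eu u dd) t := fun t => mulL_mem hB.itg hB.hom t
  have hmain := abs_step (E u dd J m G n τ) (E u dd J m G n ((τ : ℤ) - m + j0))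
    (fun p : PP n => BB k u (eu u dd) (e p.1)) (fun p => R (e p.1)) (fun p => hfin _)
    (fun p => hRle _) (fun p => cfl u dd J m G p.1 (mo n p))
    (fun p V hV => hdeg V hV _ _) (LinearMap.mulLeft k (cq (G / aeval u J))) (by
    intro V hV hV1
    have hdiv : ∀ j a, a 2 = 0 → Itg k u (cf u dd J m G V j a / G) := by
      intro j a ha
      by_cases h0 : cf u dd J m G V j a = 0
      · rw [h0, zero_div]
        exact (Bb k u).zero_mem
      · have h1 := (hDEG k F u dd δ j0 c0 J m G hB n τ V hV.1).2 j a h0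
        obtain ⟨p, hp1, hp2⟩ := exists_mo ha h1
        have h2 := hV1 p
        rw [hp1, hp2] at h2
        obtain ⟨b, hb, hb2⟩ := h2
        have h3 : cf u dd J m G V j a = G * b := hb2.symm
        rw [h3, mul_div_cancel_left₀ _ hG0]
        exact hb.1
    have hall := hRES k F u dd δ j0 c0 J m G hGd V hV.2 hdiv
    have hmul : cq (G / aeval u J) * (cq (aeval u J / G) * V) = V := by
      rw [← mul_assoc, ← map_mul, div_mul_div_cancel₀ hJ0, div_self hG0, map_one, one_mul]
    refine ⟨cq (aeval u J / G) * V, ⟨⟨fun j => ⟨fun h => ?_, fun h => ?_⟩, fun j a => ?_⟩, fun j a => ?_⟩, hmul⟩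
    · rw [coeff_cq]
      have h1 := (isHomogeneous_C (Fin 2) (aeval u J / G)).mul ((hV.1.1 j).1 h)
      rwa [zero_add] at h1
    · rw [coeff_cq, (hV.1.1 j).2 h, mul_zero]
    · rw [coeff_cq, coeff_C_mul]
      have h1 := Pool.Agent.H62.HIL.hm_mul (Pool.Agent.H62.HIL.hm_div hJh hB.hom hG0)
        (hV.1.2 j a)
      have h3 : (j0 : ℤ) - m + ((τ : ℤ) - 2 * n + 3 * j) =
          (τ : ℤ) - m + j0 - 2 * n + 3 * j := by ring
      rw [← h3]
      exact h1
    · have h1 := hall j a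
      have h2 : cf u dd J m G (cq (aeval u J / G) * V) j a =
          aeval u J * cf u dd J m G V j a / G := by
        rw [cf_cq, div_mul_eq_mul_div]
      rw [← h2] at h1
      exact h1)
  have hm4 : 4 ≤ m := by
    have := hB.big
    omega
  have hq2 : ∀ j : ℕ, (Module.finrank k (BB k u (eu u dd) (e j)) : ℤ) ≤
      Module.finrank k (R (e j)) + δ * (m + 2 * c0) * (τ + n * (m + 2 * j0) + c0) := by
    intro j
    have h3 : Module.finrank k (R (e j)) = Module.finrank k (BB k u (eu u dd) (e j - m)) :=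
      finrank_mulL hG0 (e j)
    have h4 := hRDT k F u dd δ j0 c0 J m G hB (e j)
    rw [h3]
    refine h4.trans ?_
    have h5 : (δ : ℤ) * (m + 2 * c0) * max 0 (e j + c0) ≤
        δ * (m + 2 * c0) * (τ + n * (m + 2 * j0) + c0) := by
      refine mul_le_mul_of_nonneg_left ?_ (by positivity)
      refine max_le (by positivity) ?_
      have h1 : (0 : ℤ) ≤ j * (2 * m + 6 * j0 - 3) := by
        refine mul_nonneg (by positivity) ?_
        have : (4 : ℤ) ≤ m := by exact_mod_cast hm4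
        linarith [show (0 : ℤ) ≤ j0 from by positivity]
      have h2 : (0 : ℤ) ≤ n := by positivity
      simp only [he]
      nlinarith
    linarith
  have hsum : (∑ p : PP n, Module.finrank k (BB k u (eu u dd) (e p.1)) : ℤ) ≤
      (∑ p : PP n, Module.finrank k (R (e p.1)) : ℤ) +
      nC n * (δ * (m + 2 * c0) * (τ + n * (m + 2 * j0) + c0)) := by
    refine (Finset.sum_le_sum fun p _ => hq2 p.1).trans ?_
    rw [Finset.sum_add_distrib, Finset.sum_const, Finset.card_univ, card_PP, nsmul_eq_mul]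
  have h1 : (Module.finrank k (E u dd J m G n τ) : ℤ) +
      ∑ p : PP n, (Module.finrank k (R (e p.1)) : ℤ) ≤
      Module.finrank k (E u dd J m G n ((τ : ℤ) - m + j0)) +
      ∑ p : PP n, (Module.finrank k (BB k u (eu u dd) (e p.1)) : ℤ) := by
    exact_mod_cast hmain
  linarith

end Pool.Agent.H67.SFV
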