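import Pool.Agent.H92.S2.LUT2
import Pool.Agent.H67.SFU.RED

/-!
# MP_70ba79_ag, THEOREM S, part 2, row RED2: reduction
-/

set_option autoImplicit false

namespace Pool.Agent.H67.SFV

open MvPolynomial
open Pool.Agent.H84.SM (dp cr dt)
open Pool.Agent.H3.SF Pool.Agent.H3.S2 Pool.Agent.H92.SF Pool.Agent.H92.S2
open Pool.Agent.H62.HIL (hm_mul hm_pow hm_sum hm_monomial hm_aeval hm_one)
open Pool.Agent.H67.SFU (itg_u itg_ae itg_mul itg_prod hm_prod split_mon Sm)

theorem pf_RED2 (hDAT : T_DAT2) (hREA : T_REA2) (hREB : T_REB) (hFGB : T_FGB2) : T_RED2 := by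
  intro k F _ _ _ _ _ u dd δ j0 c0 J m G hB sg S hC hsg
  haveI : CharZero F := charZero_of_injective_algebraMap (algebraMap k F).injective
  obtain ⟨-, -, -, -, hu1, hJh, hG1, -, hG2, -⟩ := hDAT k F u dd δ j0 c0 J m G hB
  have hm4 : j0 + 4 ≤ m := hB.big
  set E := eu u dd with hE
  set Ju := aeval u J with hJu
  set Su := aeval u S with hSu
  have hJi : Itg k u Ju := itg_ae u J
  have hSi : Itg k u Su := itg_ae u S
  have hSh : Hm k E sg Su := hm_aeval (κ := k) (E := E) hu1 hC.Sh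
  set d : ℕ := j0 + (m - 1) with hd
  have hdz : (d : ℤ) = (j0 : ℤ) + ((m : ℤ) - 1) := by
    rw [hd]; push_cast [Nat.cast_sub (show 1 ≤ m by omega)]; ring
  have hcast : ∀ z : F, Hm k E (d : ℤ) z → E z = (d : F) * z := by
    intro z hz
    have h1 : E z = ((d : ℤ) : F) * z := hz
    rw [h1]; push_cast; ring
  have hv : ∀ i, Hm k E (d : ℤ) (Ju * dd i G) := by
    intro i
    rw [hdz]
    exact hm_mul hJh (hG1 i)
  have hf : ∀ β : Fin (m - 1 - sg) → Fin 3, Hm k E (d : ℤ) (Ju * Su * ∏ i, u (β i)) := by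
    intro β
    have h1 := hm_prod (k := k) (E := E) Finset.univ 1 (fun i => u (β i)) fun i _ => hu1 (β i)
    rw [Finset.card_univ, Fintype.card_fin] at h1
    have h2 := hm_mul (hm_mul hJh hSh) h1
    have h3 : (j0 : ℤ) + (sg : ℤ) + ((m - 1 - sg : ℕ) : ℤ) * 1 = (d : ℤ) := by
      rw [hd]; push_cast [Nat.cast_sub (show sg ≤ m - 1 by omega)]; ring
    rwa [h3] at h2
  obtain ⟨c1, hc1⟩ := hREB k F (Fin (m - 1 - sg) → Fin 3) u (fun l => Ju * dd l G)
    (fun β => Ju * Su * ∏ i, u (β i)) E d (by omega) (fun i => hcast _ (hv i))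
    (fun i => hcast _ (hf i)) (fun i => hG2 i)
    (fun β => itg_mul (itg_mul hJi hSi) (itg_prod _ _ fun i _ => itg_u u (β i)))
    (fun β => hREA k F u dd δ j0 c0 J m G hB sg S hC hsg β)
  obtain ⟨s, η, dη, hη, hgen⟩ := hFGB k F u dd δ j0 c0 J m G hB
  refine ⟨c1, ∑ i, dη i, ?_⟩
  intro N e b he hb
  set t : ℤ := (e : ℤ) + (N + c1) * (j0 + sg) - N * (j0 + m - 1) with ht
  suffices h : (Ju * Su) ^ (N + c1) * b ∈ Sm u E (fun l => Ju * dd l G) N t from h
  obtain ⟨P, hP1, hP2, hP3⟩ := hgen e b hb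
  rw [hP3, Finset.mul_sum]
  refine Submodule.sum_mem _ fun i _ => ?_
  have hdi : dη i ≤ ∑ i, dη i :=
    Finset.single_le_sum (f := dη) (fun _ _ => Nat.zero_le _) (Finset.mem_univ i)
  have hdi2 : dη i ≤ e := by
    have := Nat.le_of_lt_succ (Nat.lt_succ_of_le (le_trans (Nat.le_add_left _ _) he))
    omega
  have hPh := hP1 i hdi2
  have hsum : (Ju * Su) ^ (N + c1) * (aeval u (P i) * η i) =
      ∑ α ∈ (P i).support, (P i).coeff α •
        ((Ju * Su) ^ (N + c1) * (aeval u (monomial α (1 : k)) * η i)) := by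
    conv_lhs => rw [(P i).as_sum]
    rw [map_sum, Finset.sum_mul, Finset.mul_sum]
    refine Finset.sum_congr rfl fun α _ => ?_
    have h1 : (monomial α ((P i).coeff α) : MvPolynomial (Fin 3) k) =
        (P i).coeff α • monomial α (1 : k) := by
      rw [smul_monomial, smul_eq_mul, mul_one]
    rw [h1, map_smul, smul_mul_assoc, mul_smul_comm]
  rw [hsum]
  refine Submodule.sum_mem _ fun α hα => Submodule.smul_mem _ _ ?_
  have hαd : α.degree = e - dη i := by
    rw [Finsupp.degree_eq_weight_one]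
    exact hPh (mem_support_iff.mp hα)
  have hlen : (N + c1) * (m - 1 - sg) ≤ α.degree := by
    rw [hαd]
    have h1 : (N + c1) * (m - 1 - sg) ≤ (N + c1) * (m - 1) :=
      Nat.mul_le_mul_left _ (Nat.sub_le _ _)
    have h2 : (N + c1) * (m - 1) = (m - 1) * (N + c1) := mul_comm _ _
    omega
  obtain ⟨γ, α', hα', hsp⟩ := split_mon (k := k) u ((N + c1) * (m - 1 - sg)) α hlen
  obtain ⟨z, hz, hzs⟩ := hc1 N (fun x y => γ (finProdFinEquiv (x, y)))
  have hprod : (Ju * Su) ^ (N + c1) * ∏ i, u (γ i) =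
      ∏ x : Fin (N + c1), (Ju * Su * ∏ y : Fin (m - 1 - sg), u (γ (finProdFinEquiv (x, y)))) := by
    rw [Finset.prod_mul_distrib, Finset.prod_const, Finset.card_univ, Fintype.card_fin]
    congr 1
    rw [← Fintype.prod_prod_type' (fun (x : Fin (N + c1)) (y : Fin (m - 1 - sg)) =>
      u (γ (finProdFinEquiv (x, y)))), ← Equiv.prod_comp finProdFinEquiv]
  have hkey : (Ju * Su) ^ (N + c1) * (aeval u (monomial α (1 : k)) * η i) =
      ∑ l : Fin N → Fin 3, (∏ i, (Ju * dd (l i) G)) *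
        (z l * (aeval u (monomial α' (1 : k)) * η i)) := by
    rw [hsp]
    have h1 : (Ju * Su) ^ (N + c1) * ((∏ i, u (γ i)) * aeval u (monomial α' (1 : k)) * η i) =
        ((Ju * Su) ^ (N + c1) * ∏ i, u (γ i)) * (aeval u (monomial α' (1 : k)) * η i) := by ring
    rw [h1, hprod, hzs, Finset.sum_mul]
    exact Finset.sum_congr rfl fun l _ => by ring
  refine ⟨fun l => z l * (aeval u (monomial α' (1 : k)) * η i), fun l => ⟨?_, ?_⟩, hkey⟩
  · exact itg_mul (hz l).1 (itg_mul (itg_ae u _) (hη i).1)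
  · have h1 : Hm k E ((c1 * d : ℕ) : ℤ) (z l) := by
      have h2 := (hz l).2
      change E (z l) = _
      rw [h2]; push_cast; ring
    have h3 := hm_monomial (κ := k) (E := E) hu1 α' 1
    have h4 := hm_mul h1 (hm_mul h3 (hη i).2)
    have h5 : ((c1 * d : ℕ) : ℤ) + ((α'.degree : ℤ) + (dη i : ℤ)) = t := by
      have h6 : (α'.degree : ℤ) = (e : ℤ) - dη i - (N + c1) * ((m : ℤ) - 1 - sg) := by
        have h7 : ((α'.degree + (N + c1) * (m - 1 - sg) : ℕ) : ℤ) = ((e - dη i : ℕ) : ℤ) := by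
          rw [hα', hαd]
        push_cast [Nat.cast_sub hdi2, Nat.cast_sub (show sg ≤ m - 1 by omega),
          Nat.cast_sub (show 1 ≤ m by omega)] at h7
        linarith
      rw [h6, ht]
      push_cast
      rw [hdz]
      ring
    rw [h5] at h4
    exact h4

end Pool.Agent.H67.SFV
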